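import Mathlib

/-!
# A bipartite graph without large complete bipartite subgraphs and a non-prime LSS ideal

Let `G` be the bipartite graph on `[6] ⊔ [6]` in which `a` and `b` are joined unless
`a = b` or `a = b + 1` modulo `6`. It contains no `K_{a,b}` with `a, b ≥ 1` and `a + b ≥ 6`, but over
every field its Lovász–Saks–Schrijver ideal in dimension `5` is not prime.
-/

set_option autoImplicit false

open MvPolynomial

namespace Pool.Agent.Results.MP_024e1e_ag.NotPrime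

/-- The Lovász–Saks–Schrijver ideal of the graph `G` in dimension `d`. -/
noncomputable def LSS (k : Type*) [Field k] {V : Type*} (G : SimpleGraph V) (d : ℕ) :
    Ideal (MvPolynomial (V × Fin d) k) :=
  Ideal.span {f | ∃ u v : V, G.Adj u v ∧ f = ∑ j : Fin d, X (u, j) * X (v, j)}

/-- the graph: `inl a` and `inr b` are joined unless `a = b` or `a = b + 1` -/
def G : SimpleGraph (Fin 6 ⊕ Fin 6) where
  Adj u v := (∃ a b : Fin 6, u = Sum.inl a ∧ v = Sum.inr b ∧ a ≠ b ∧ a ≠ b + 1) ∨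
    (∃ a b : Fin 6, v = Sum.inl a ∧ u = Sum.inr b ∧ a ≠ b ∧ a ≠ b + 1)
  symm := ⟨fun _ _ h => h.symm⟩
  loopless := ⟨by
    rintro u (⟨a, b, rfl, h, -⟩ | ⟨a, b, rfl, h, -⟩) <;> exact absurd h (by simp)⟩

lemma G_le : G ≤ completeBipartiteGraph (Fin 6) (Fin 6) := by
  rintro u v (⟨a, b, rfl, rfl, -⟩ | ⟨a, b, rfl, rfl, -⟩)
  · left; simp
  · right; simp

/-- the combinatorial fact behind the absence of large complete bipartite subgraphs -/
lemma comb : ∀ S T : Finset (Fin 6), S.Nonempty → T.Nonempty →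
    (∀ s ∈ S, ∀ t ∈ T, s ≠ t ∧ s ≠ t + 1) → S.card + T.card ≤ 5 := by
  decide +kernel

/-- the vectors in the left kernel of a `6 × 3` matrix given by four rows -/
def uvec {A : Type*} [CommRing A] (y : Fin 6 → Fin 3 → A) (I : Fin 4 → Fin 6) (i : Fin 6) : A :=
  let det3 : Fin 6 → Fin 6 → Fin 6 → A := fun a b c =>
    y a 0 * (y b 1 * y c 2 - y b 2 * y c 1) - y a 1 * (y b 0 * y c 2 - y b 2 * y c 0) +
      y a 2 * (y b 0 * y c 1 - y b 1 * y c 0)
  (if i = I 0 then det3 (I 1) (I 2) (I 3) else 0) - (if i = I 1 then det3 (I 0) (I 2) (I 3) else 0)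
   + (if i = I 2 then det3 (I 0) (I 1) (I 3) else 0) -
    (if i = I 3 then det3 (I 0) (I 1) (I 2) else 0)

/-- the vectors in the left kernel of a `6 × 2` matrix given by three rows -/
def wvec {A : Type*} [CommRing A] (z : Fin 6 → Fin 2 → A) (J : Fin 3 → Fin 6) (b : Fin 6) : A :=
  let det2 : Fin 6 → Fin 6 → A := fun a b => z a 0 * z b 1 - z a 1 * z b 0
  (if b = J 0 then det2 (J 1) (J 2) else 0) - (if b = J 1 then det2 (J 0) (J 2) else 0) +
    (if b = J 2 then det2 (J 0) (J 1) else 0)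

lemma uvec_mul {A : Type*} [CommRing A] (y : Fin 6 → Fin 3 → A) (I : Fin 4 → Fin 6) (c : Fin 3) :
    ∑ i, uvec y I i * y i c = 0 := by
  have h : ∀ (i j : Fin 6) (x : A), (if i = j then x else 0) * y i c =
      if i = j then x * y j c else 0 := by
    intro i j x; split_ifs with hij
    · rw [hij]
    · ring
  simp only [uvec, add_mul, sub_mul, h, Finset.sum_add_distrib, Finset.sum_sub_distrib,
    Finset.sum_ite_eq', Finset.mem_univ, if_true]
  fin_cases c <;> simp only [Fin.zero_eta, Fin.mk_one, Fin.reduceFinMk] <;> ring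

lemma wvec_mul {A : Type*} [CommRing A] (z : Fin 6 → Fin 2 → A) (J : Fin 3 → Fin 6) (c : Fin 2) :
    ∑ b, wvec z J b * z b c = 0 := by
  have h : ∀ (i j : Fin 6) (x : A), (if i = j then x else 0) * z i c =
      if i = j then x * z j c else 0 := by
    intro i j x; split_ifs with hij
    · rw [hij]
    · ring
  simp only [wvec, add_mul, sub_mul, h, Finset.sum_add_distrib, Finset.sum_sub_distrib,
    Finset.sum_ite_eq', Finset.mem_univ, if_true]
  fin_cases c <;> simp only [Fin.zero_eta, Fin.mk_one] <;> ring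

lemma uvec_map {A B : Type*} [CommRing A] [CommRing B] (φ : A →+* B) (y : Fin 6 → Fin 3 → A)
    (I : Fin 4 → Fin 6) (i : Fin 6) : φ (uvec y I i) = uvec (fun i c => φ (y i c)) I i := by
  simp only [uvec, map_add, map_sub, map_mul, apply_ite φ, map_zero]

lemma wvec_map {A B : Type*} [CommRing A] [CommRing B] (φ : A →+* B) (z : Fin 6 → Fin 2 → A)
    (J : Fin 3 → Fin 6) (b : Fin 6) : φ (wvec z J b) = wvec (fun i c => φ (z i c)) J b := by
  simp only [wvec, map_add, map_sub, map_mul, apply_ite φ, map_zero]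

/-- the non-edges, `(a, b)` with `a = b` or `a = b + 1` -/
def ne : Fin 12 → Fin 6 × Fin 6 :=
  ![(0, 0), (1, 0), (1, 1), (2, 1), (2, 2), (3, 2), (3, 3), (4, 3), (4, 4), (5, 4), (5, 5), (0, 5)]

lemma ne_inj : Function.Injective ne := by decide

lemma ne_iff : ∀ p : Fin 6 × Fin 6, (∀ c, ne c ≠ p) → p.1 ≠ p.2 ∧ p.1 ≠ p.2 + 1 := by decide

lemma ne_not : ∀ c, ¬ ((ne c).1 ≠ (ne c).2 ∧ (ne c).1 ≠ (ne c).2 + 1) := by decide

/-- the row sets -/
def Irow : Fin 12 → Fin 4 → Fin 6 :=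
  ![![0, 2, 4, 5], ![1, 3, 4, 5], ![2, 3, 4, 5], ![0, 1, 4, 5], ![0, 1, 2, 5], ![1, 2, 3, 5],
    ![1, 2, 3, 4], ![0, 2, 3, 5], ![2, 3, 4, 5], ![0, 1, 3, 4], ![0, 3, 4, 5], ![0, 1, 2, 3]]

def Jrow : Fin 12 → Fin 3 → Fin 6 :=
  ![![1, 3, 5], ![3, 4, 5], ![0, 1, 4], ![1, 2, 4], ![0, 2, 3], ![1, 2, 3],
    ![0, 2, 5], ![0, 1, 4], ![0, 4, 5], ![2, 3, 4], ![1, 3, 4], ![2, 3, 5]]

/-- the linear system satisfied by the entries in the non-edges -/
def T {A : Type*} [CommRing A] (y : Fin 6 → Fin 3 → A) (z : Fin 6 → Fin 2 → A) :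
    Matrix (Fin 12) (Fin 12) A :=
  Matrix.of fun r c => uvec y (Irow r) (ne c).1 * wvec z (Jrow r) (ne c).2

/-- the special point -/
def y0 : Fin 6 → Fin 3 → ℤ :=
  ![![0, -1, 1], ![0, 0, -1], ![1, -1, 0], ![0, -1, 0], ![1, -1, 0], ![0, 0, 1]]

def z0 : Fin 6 → Fin 2 → ℤ :=
  ![![0, -1], ![0, -1], ![1, 1], ![-1, 0], ![-1, -1], ![-1, 0]]

def Tinv : Matrix (Fin 12) (Fin 12) ℤ :=
  !![0, 0, 0, 0, 0, 0, 0, 1, 0, 0, 0, 0;
  0, 0, 0, 0, -1, 0, 0, 0, 0, 0, 0, 0;
  0, 0, 0, 0, 0, -1, 0, 0, 0, 0, 0, 0;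
  0, 0, 1, 0, 0, 0, 0, 0, 0, 0, 0, 0;
  0, 0, 0, 0, 0, 0, 1, 0, 0, 0, 0, 0;
  0, 0, 0, 0, 0, 0, 0, 0, 0, 1, 0, 0;
  0, 0, 0, -1, 0, 0, 0, 0, 0, 0, -1, 0;
  1, 0, 0, 0, 0, 0, 0, 0, 0, 0, 0, 0;
  0, 0, 0, 0, 0, 0, 0, 0, -1, 0, 0, 0;
  0, 0, 0, -1, 0, 0, 0, 0, 0, 0, 0, 0;
  0, 1, 0, 0, 0, 0, 0, 0, 0, 0, 0, 0;
  0, 0, 0, 1, 0, 0, 0, 0, 0, 0, 1, 1]

lemma T_mul_inv : T y0 z0 * Tinv = 1 := by
  decide +kernel

lemma det_T0 : IsUnit (T y0 z0).det := by
  have h : (T y0 z0).det * Tinv.det = 1 := by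
    rw [← Matrix.det_mul, T_mul_inv, Matrix.det_one]
  exact IsUnit.of_mul_eq_one _ h

lemma T_map {A B : Type*} [CommRing A] [CommRing B] (φ : A →+* B) (y : Fin 6 → Fin 3 → A)
    (z : Fin 6 → Fin 2 → A) :
    (T y z).map φ = T (fun i c => φ (y i c)) (fun i c => φ (z i c)) := by
  ext r c
  simp only [T, Matrix.map_apply, Matrix.of_apply, map_mul, uvec_map, wvec_map]

section

variable {k : Type*} [Field k]

/-- a ring homomorphism kills the ideal if the non-adjacent products vanish -/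
lemma LSS_le_ker {A : Type*} [CommRing A] (φ : MvPolynomial ((Fin 6 ⊕ Fin 6) × Fin 5) k →+* A)
    (h : ∀ a b : Fin 6, a ≠ b → a ≠ b + 1 →
      ∑ j : Fin 5, φ (X (Sum.inl a, j)) * φ (X (Sum.inr b, j)) = 0) :
    LSS k G 5 ≤ RingHom.ker φ := by
  rw [LSS, Ideal.span_le]
  rintro f ⟨u, v, huv, rfl⟩
  rw [SetLike.mem_coe, RingHom.mem_ker, map_sum]
  simp only [map_mul]
  rcases huv with ⟨a, b, rfl, rfl, h1, h2⟩ | ⟨a, b, rfl, rfl, h1, h2⟩
  · exact h a b h1 h2
  · rw [← h a b h1 h2]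
    exact Finset.sum_congr rfl fun j _ => mul_comm _ _

lemma mem_LSS (a b : Fin 6) (h1 : a ≠ b) (h2 : a ≠ b + 1) :
    (∑ j : Fin 5, X (Sum.inl a, j) * X (Sum.inr b, j) :
      MvPolynomial ((Fin 6 ⊕ Fin 6) × Fin 5) k) ∈ LSS k G 5 :=
  Ideal.subset_span ⟨_, _, Or.inl ⟨a, b, rfl, rfl, h1, h2⟩, rfl⟩

/-- evaluation at an integral point -/
noncomputable def ev (k : Type*) [Field k] (Y Z : Fin 6 → Fin 5 → ℤ) :
    MvPolynomial ((Fin 6 ⊕ Fin 6) × Fin 5) k →+* k :=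
  (aeval (fun p : (Fin 6 ⊕ Fin 6) × Fin 5 =>
    ((Sum.elim (fun a => Y a p.2) (fun b => Z b p.2) p.1 : ℤ) : k))).toRingHom

lemma ev_inl (Y Z : Fin 6 → Fin 5 → ℤ) (a : Fin 6) (j : Fin 5) :
    ev k Y Z (X (Sum.inl a, j)) = ((Y a j : ℤ) : k) := by
  simp [ev]

lemma ev_inr (Y Z : Fin 6 → Fin 5 → ℤ) (a : Fin 6) (j : Fin 5) :
    ev k Y Z (X (Sum.inr a, j)) = ((Z a j : ℤ) : k) := by
  simp [ev]

lemma LSS_le_ker_ev (Y Z : Fin 6 → Fin 5 → ℤ)
    (h : ∀ a b : Fin 6, a ≠ b → a ≠ b + 1 → ∑ j, Y a j * Z b j = 0) :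
    LSS k G 5 ≤ RingHom.ker (ev k Y Z) := by
  apply LSS_le_ker
  intro a b h1 h2
  have := congrArg (Int.cast : ℤ → k) (h a b h1 h2)
  simp only [ev_inl, ev_inr]
  rw [Int.cast_sum] at this
  simpa only [Int.cast_mul, Int.cast_zero] using this

/-- the generic matrices -/
noncomputable def yg (k : Type*) [Field k] : Fin 6 → Fin 3 → MvPolynomial ((Fin 6 ⊕ Fin 6) × Fin 5) k :=
  fun a c => X (Sum.inl a, Fin.castAdd 2 c)

noncomputable def zg (k : Type*) [Field k] : Fin 6 → Fin 2 → MvPolynomial ((Fin 6 ⊕ Fin 6) × Fin 5) k :=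
  fun b c => X (Sum.inr b, Fin.natAdd 3 c)

/-- the first special point -/
def Y1 : Fin 6 → Fin 5 → ℤ := fun a => Fin.append (y0 a) ![0, 0]
def Z1 : Fin 6 → Fin 5 → ℤ := fun b => Fin.append ![0, 0, 0] (z0 b)

lemma YZ1 : ∀ a b : Fin 6, a ≠ b → a ≠ b + 1 → ∑ j, Y1 a j * Z1 b j = 0 := by decide +kernel

lemma Y1_cast (a : Fin 6) (c : Fin 3) : Y1 a (Fin.castAdd 2 c) = y0 a c := by
  rw [Y1, Fin.append_left]

lemma Z1_cast (a : Fin 6) (c : Fin 2) : Z1 a (Fin.natAdd 3 c) = z0 a c := by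
  rw [Z1, Fin.append_right]

/-- the second special point -/
def Y2 : Fin 6 → Fin 5 → ℤ := fun a j => if a = 0 ∧ j = 0 then 1 else 0

lemma YZ2 : ∀ a b : Fin 6, a ≠ b → a ≠ b + 1 → ∑ j, Y2 a j * Y2 b j = 0 := by decide +kernel

/-- the determinant is not in the ideal -/
lemma det_notMem : (T (yg k) (zg k)).det ∉ LSS k G 5 := by
  intro h
  have h1 := LSS_le_ker_ev Y1 Z1 YZ1 h
  rw [RingHom.mem_ker, RingHom.map_det, RingHom.mapMatrix_apply, T_map] at h1
  have h2 : T (fun i c => ev k Y1 Z1 (yg k i c)) (fun i c => ev k Y1 Z1 (zg k i c)) =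
      (T y0 z0).map (Int.castRingHom k) := by
    rw [T_map]
    congr 1
    · funext i c
      rw [yg, ev_inl, Y1_cast]; rfl
    · funext i c
      rw [zg, ev_inr, Z1_cast]; rfl
  rw [h2, ← RingHom.mapMatrix_apply, ← RingHom.map_det] at h1
  exact (det_T0.map (Int.castRingHom k)).ne_zero h1

/-- the linear system -/
lemma T_mulVec (r : Fin 12) :
    ∑ c, T (yg k) (zg k) r c *
      ∑ j : Fin 5, X (Sum.inl (ne c).1, j) * X (Sum.inr (ne c).2, j) ∈ LSS k G 5 := by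
  set M : Fin 6 × Fin 6 → MvPolynomial ((Fin 6 ⊕ Fin 6) × Fin 5) k :=
    fun p => ∑ j : Fin 5, X (Sum.inl p.1, j) * X (Sum.inr p.2, j) with hM
  set F : Fin 6 × Fin 6 → MvPolynomial ((Fin 6 ⊕ Fin 6) × Fin 5) k :=
    fun p => uvec (yg k) (Irow r) p.1 * wvec (zg k) (Jrow r) p.2 * M p with hF
  have h1 : ∑ c, T (yg k) (zg k) r c *
      ∑ j : Fin 5, X (Sum.inl (ne c).1, j) * X (Sum.inr (ne c).2, j) = ∑ c, F (ne c) := rfl
  have h2 : ∑ p, F p = 0 := by
    have h3 : ∀ p, F p = ∑ j : Fin 5, (uvec (yg k) (Irow r) p.1 * X (Sum.inl p.1, j)) *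
        (wvec (zg k) (Jrow r) p.2 * X (Sum.inr p.2, j)) := by
      intro p
      rw [hF, hM]
      simp only [Finset.mul_sum]
      exact Finset.sum_congr rfl fun j _ => by ring
    simp only [h3]
    rw [Finset.sum_comm]
    refine Finset.sum_eq_zero fun j _ => ?_
    rw [Fintype.sum_prod_type]
    simp only [← Finset.mul_sum, ← Finset.sum_mul]
    refine Fin.addCases (m := 3) (n := 2) (fun c => ?_) (fun c => ?_) j
    · have := uvec_mul (yg k) (Irow r) c
      simp only [yg] at this ⊢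
      rw [this, zero_mul]
    · have := wvec_mul (zg k) (Jrow r) c
      simp only [zg] at this ⊢
      rw [this, mul_zero]
  have h4 : ∑ c, F (ne c) + ∑ p ∈ (Finset.univ.map ⟨ne, ne_inj⟩)ᶜ, F p = 0 := by
    rw [← h2, ← Finset.sum_add_sum_compl (Finset.univ.map ⟨ne, ne_inj⟩) F, Finset.sum_map]
    rfl
  have h5 : ∑ p ∈ (Finset.univ.map ⟨ne, ne_inj⟩)ᶜ, F p ∈ LSS k G 5 := by
    refine Ideal.sum_mem _ fun p hp => ?_
    have hp' : ∀ c, ne c ≠ p := by
      intro c hc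
      rw [Finset.mem_compl, Finset.mem_map] at hp
      exact hp ⟨c, Finset.mem_univ _, hc⟩
    obtain ⟨h6, h7⟩ := ne_iff p hp'
    exact Ideal.mul_mem_left _ _ (mem_LSS p.1 p.2 h6 h7)
  rw [h1, eq_neg_of_add_eq_zero_left h4]
  exact (LSS k G 5).neg_mem h5

lemma det_mul_mem (c : Fin 12) :
    (T (yg k) (zg k)).det *
      ∑ j : Fin 5, X (Sum.inl (ne c).1, j) * X (Sum.inr (ne c).2, j) ∈ LSS k G 5 := by
  set x : Fin 12 → MvPolynomial ((Fin 6 ⊕ Fin 6) × Fin 5) k :=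
    fun c => ∑ j : Fin 5, X (Sum.inl (ne c).1, j) * X (Sum.inr (ne c).2, j) with hx
  have h1 : (Matrix.adjugate (T (yg k) (zg k))).mulVec ((T (yg k) (zg k)).mulVec x) c =
      (T (yg k) (zg k)).det * x c := by
    rw [Matrix.mulVec_mulVec, Matrix.adjugate_mul, Matrix.smul_mulVec, Matrix.one_mulVec,
      Pi.smul_apply, smul_eq_mul]
  have h2 : (T (yg k) (zg k)).det * x c ∈ LSS k G 5 := by
    rw [← h1, Matrix.mulVec, dotProduct]
    refine Ideal.sum_mem _ fun r _ => Ideal.mul_mem_left _ _ ?_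
    exact T_mulVec r
  exact h2

end

lemma no_K {a b : ℕ} (g : Fin a → Fin 6) (h : Fin b → Fin 6) (hg : Function.Injective g)
    (hh : Function.Injective h) (ha : 1 ≤ a) (hb : 1 ≤ b)
    (hadj : ∀ i j, g i ≠ h j ∧ g i ≠ h j + 1) : a + b ≤ 5 := by
  have := comb (Finset.univ.image g) (Finset.univ.image h)
    ⟨g ⟨0, ha⟩, Finset.mem_image_of_mem _ (Finset.mem_univ _)⟩
    ⟨h ⟨0, hb⟩, Finset.mem_image_of_mem _ (Finset.mem_univ _)⟩ ?_
  · rwa [Finset.card_image_of_injective _ hg, Finset.card_image_of_injective _ hh,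
      Finset.card_univ, Finset.card_univ, Fintype.card_fin, Fintype.card_fin] at this
  · intro s hs t ht
    obtain ⟨i, -, rfl⟩ := Finset.mem_image.1 hs
    obtain ⟨j, -, rfl⟩ := Finset.mem_image.1 ht
    exact hadj i j

lemma adj_inl {x : Fin 6} {v : Fin 6 ⊕ Fin 6} (h : G.Adj (Sum.inl x) v) :
    ∃ y, v = Sum.inr y ∧ x ≠ y ∧ x ≠ y + 1 := by
  rcases h with ⟨a, b, h1, rfl, h2⟩ | ⟨a, b, rfl, h1, h2⟩
  · rw [Sum.inl.injEq] at h1
    subst h1
    exact ⟨b, rfl, h2⟩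
  · exact absurd h1 (by simp)

lemma adj_inr {y : Fin 6} {v : Fin 6 ⊕ Fin 6} (h : G.Adj (Sum.inr y) v) :
    ∃ x, v = Sum.inl x ∧ x ≠ y ∧ x ≠ y + 1 := by
  rcases h with ⟨a, b, h1, rfl, h2⟩ | ⟨a, b, rfl, h1, h2⟩
  · exact absurd h1 (by simp)
  · rw [Sum.inr.injEq] at h1
    subst h1
    exact ⟨a, rfl, h2⟩

/-- **Counterexample to the description of prime LSS ideals of bipartite graphs.** There is a
subgraph `G` of `K_{6,6}` containing no `K_{a,b}` with `a, b ≥ 1` and `a + b ≥ 6`, for which the LSS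
ideal of `G` in dimension `5` over any field `k` is not prime. -/
theorem result :
    ∃ G : SimpleGraph (Fin 6 ⊕ Fin 6), G ≤ completeBipartiteGraph (Fin 6) (Fin 6) ∧
      (∀ a b : ℕ, 1 ≤ a → 1 ≤ b → 6 ≤ a + b →
        ¬ (completeBipartiteGraph (Fin a) (Fin b)).IsContained G) ∧
      ∀ (k : Type*) [Field k], ¬ (LSS k G 5).IsPrime := by
  refine ⟨G, G_le, ?_, ?_⟩
  · rintro a b ha hb hab ⟨f⟩
    have hadj : ∀ i j, G.Adj (f (Sum.inl i)) (f (Sum.inr j)) := fun i j =>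
      f.toHom.map_adj (Or.inl ⟨rfl, rfl⟩)
    have hinj : Function.Injective f := f.injective
    rcases h0 : f (Sum.inl ⟨0, ha⟩) with x | x
    · have h1 : ∀ j, ∃ y, f (Sum.inr j) = Sum.inr y := fun j => by
        have := hadj ⟨0, ha⟩ j
        rw [h0] at this
        obtain ⟨y, hy, -⟩ := adj_inl this
        exact ⟨y, hy⟩
      choose h hh using h1
      have h2 : ∀ i, ∃ y, f (Sum.inl i) = Sum.inl y := fun i => by
        have := (hadj i ⟨0, hb⟩).symm
        rw [hh] at this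
        obtain ⟨y, hy, -⟩ := adj_inr this
        exact ⟨y, hy⟩
      choose g hg using h2
      have := no_K g h (fun i j hij => by
          have : f (Sum.inl i) = f (Sum.inl j) := by rw [hg, hg, hij]
          exact Sum.inl_injective (hinj this))
        (fun i j hij => by
          have : f (Sum.inr i) = f (Sum.inr j) := by rw [hh, hh, hij]
          exact Sum.inr_injective (hinj this)) ha hb (fun i j => by
          have := hadj i j
          rw [hg, hh] at this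
          obtain ⟨y, hy, h3⟩ := adj_inl this
          rw [Sum.inr.injEq] at hy
          rw [hy]; exact h3)
      omega
    · have h1 : ∀ j, ∃ y, f (Sum.inr j) = Sum.inl y := fun j => by
        have := hadj ⟨0, ha⟩ j
        rw [h0] at this
        obtain ⟨y, hy, -⟩ := adj_inr this
        exact ⟨y, hy⟩
      choose h hh using h1
      have h2 : ∀ i, ∃ y, f (Sum.inl i) = Sum.inr y := fun i => by
        have := (hadj i ⟨0, hb⟩).symm
        rw [hh] at this
        obtain ⟨y, hy, -⟩ := adj_inl this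
        exact ⟨y, hy⟩
      choose g hg using h2
      have := no_K h g (fun i j hij => by
          have : f (Sum.inr i) = f (Sum.inr j) := by rw [hh, hh, hij]
          exact Sum.inr_injective (hinj this))
        (fun i j hij => by
          have : f (Sum.inl i) = f (Sum.inl j) := by rw [hg, hg, hij]
          exact Sum.inl_injective (hinj this)) hb ha (fun i j => by
          have := (hadj j i).symm
          rw [hg, hh] at this
          obtain ⟨y, hy, h3⟩ := adj_inl this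
          rw [Sum.inr.injEq] at hy
          rw [hy]; exact h3)
      omega
  · intro k _ hp
    have h := det_mul_mem (k := k) 0
    rcases hp.mem_or_mem h with h | h
    · exact det_notMem h
    · have h1 := LSS_le_ker_ev Y2 Y2 YZ2 h
      rw [RingHom.mem_ker, map_sum] at h1
      simp only [map_mul, ev_inl, ev_inr] at h1
      simp [ne, Y2] at h1

end Pool.Agent.Results.MP_024e1e_ag.NotPrime
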